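import Pool.Agent.R81.EV.K6.TabL

set_option autoImplicit false
set_option maxRecDepth 100000

namespace Pool.Agent.R81.EV.K6

theorem cp2 : chk4 2 = true := by decide +kernel

end Pool.Agent.R81.EV.K6
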